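import Pool.Agent.H632R2.PM.PFin

/-!
# For subquadratic De Morgan formulas, PSPACE is not contained in PP^PH
-/

namespace Pool.Agent.Results.MP_153864_lc.FormulaPSPACE

open H632.PM
open Filter

theorem result :
    (∃ f ∈ PSPACEclass (fun n => Nat.log 2 n + 1) (fun n => n), ∀ m s : ℕ → ℕ,
      (∀ K : ℕ, ∀ᶠ n in atTop, (s n + 1) * (m n + Nat.log 2 n) ^ K ≤ n ^ 2) →
      f ∉ PPPHclass m s) ∧
    (∀ l : List Quant, (∀ b, Quant.cnt b ∉ l) → ∀ m s n : ℕ, ∀ g ∈ Lev 2 l m s (n + m),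
      ∀ (a : (Fin m → Bool) → ℝ) (θ : ℝ),
      (∀ x : Fin n → Bool, Odd (ones x) ↔ θ < ∑ y, a y * iR (g (Fin.append x y))) →
      n ^ 2 ≤ 243847994572800 * (s + 1) * (16 * (l.length + 1)) ^ (4 * l.length + 4)
        * (m + 1) ^ (8 * l.length + 4)) :=
  ⟨⟨_, parity_pspace, parity_not_ppph⟩, fun l hl m s n g hg a θ h =>
    thr_bound l hl m s n g hg a θ h⟩

end Pool.Agent.Results.MP_153864_lc.FormulaPSPACE
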