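import Pool.Agent.H547R8.Asm
import Pool.Agent.H547R8.T_CKT
import Pool.Agent.H547R8.T_CLS
import Pool.Agent.H547R8.T_COP
import Pool.Agent.H547R8.T_CPC
import Pool.Agent.H547R8.T_DRC
import Pool.Agent.H547R8.T_DUL
import Pool.Agent.H547R8.T_LAY
import Pool.Agent.H547R8.T_MBB
import Pool.Agent.H547R8.T_MJC
import Pool.Agent.H547R8.T_NFN
import Pool.Agent.H547R8.T_NFP
import Pool.Agent.H547R8.T_PFR
import Pool.Agent.H547R8.T_PR1
import Pool.Agent.H547R8.T_PR2
import Pool.Agent.H547R8.T_PS2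
import Pool.Agent.H547R8.T_PWM
import Pool.Agent.H547R8.T_S2C
import Pool.Agent.H547R8.T_TFR
import Pool.Agent.H547R8.T_TS2
import Pool.Agent.H547R8.T_TWM
import Pool.Agent.H547R8.T_UP1
import Pool.Agent.H547R8.T_UP2
import Pool.Agent.H547R8.T_UP3
import Pool.Agent.H547R8.T_WMC

/-!
# Probabilistic polynomial time over sets of Boolean functions: P, NP, coNP or PP

`PPover B`: the languages `{x | more than half of the strings r of length p(|x|) satisfy V(x, r)}`,
`V` in polynomial time, such that for every `x` the predicate `V(x, ·)` has circuits of polynomial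
size with gates from `B`; `PPgeOver B`: the same with `at least half`.  For every set `B` of
Boolean functions, `PPover B` is contained in `P`, or equal to `NP`, or equal to `PP`, and
`PPgeOver B` is contained in `P`, or equal to `coNP`, or equal to `PP`.
-/

set_option autoImplicit false

namespace Pool.Agent.Results.MP_153864_lc.GateSetTrichotomy

open Pool.Agent.NPC Pool.Agent.H547R6 Pool.Agent.H547R7 Pool.Agent.H547R8

/-- **Trichotomy for `PP` over gate sets.** -/
theorem result (B : Set BFun) :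
    ((EasyPP B → PPover B ⊆ P) ∧ (¬ EasyPP B → B ⊆ Or2 → PPover B = NP) ∧
      (¬ EasyPP B → ¬ B ⊆ Or2 → PPover B = PP)) ∧
    ((EasyGe B → PPgeOver B ⊆ P) ∧ (¬ EasyGe B → B ⊆ And2 → PPgeOver B = co NP) ∧
      (¬ EasyGe B → ¬ B ⊆ And2 → PPgeOver B = PP)) := by
  have hckt : S_CKT := t_CKT t_LAY
  exact main_of hckt (t_UP1 t_CLS t_PR2) (t_UP2 t_CLS t_PR1) (t_UP3 t_CLS t_PR1) t_DRC t_MBB
    t_S2C (t_WMC t_DRC t_MJC) t_PFR t_PS2 t_PWM t_TFR t_TS2 t_TWM t_NFP t_NFN t_DUL t_COP
    (t_CPC t_NFP) B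

end Pool.Agent.Results.MP_153864_lc.GateSetTrichotomy
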