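import Pool.Agent.H620R2.Gauge.Cover
import Pool.Agent.H620R2.Gauge.NonNull
import Pool.Agent.H620R2.Gauge.P
import Pool.Agent.H620R2.Gauge.U2
import Pool.Agent.H943R3.PP.Adv
import Pool.Agent.H943R3.PP.M4
import Pool.Agent.H943R3.PP.N1
import Pool.Agent.H943R3.PP.N2
import Pool.Agent.H943R3.PP.N5
import Pool.Agent.H943R3.PP.Union

/-!
# How many oracles collapse one of the inclusions `NP ∪ coNP ⊆ PP ⊆ PSPACE`?

For every gauge `f`, the set of the oracles relative to which one of the two inclusions is an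
equality is a null set for `f` if and only if for every `ε > 0` there are infinitely many `N` with
`f N ≤ 2 ^ ((log N) ^ ε)`. The same holds for every set of oracles between the set of the `A` such
that every language in `PSPACE` relative to `A` is polynomial-time many-one reducible to `A` and
the set of the `A` such that `PP` relative to `A` is contained in the polynomial hierarchy relative
to `A` or `PSPACE` relative to `A` is contained in `PP^PH` relative to `A` with polynomial advice.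
-/

namespace Pool.Agent.Results.MP_153864_lc.GaugeThreshold

open Pool.Agent.NPC Pool.Agent.H620R2.Gauge Pool.Agent.H943R3.PP

theorem result (f : ℕ → ℝ) :
    (∀ O : Set Oracle,
      (∀ A : Oracle, (∀ L, IsPSPACE A L → Reduces L {x | A x = true}) → A ∈ O) →
      (∀ A ∈ O, (∀ L, IsPP A L → IsPH A L) ∨
        (∀ L, IsPSPACE A L → WithAdvice (IsPPPH A) L)) →
      (Null f O ↔
        ∀ ε : ℝ, 0 < ε → ∃ᶠ N : ℕ in Filter.atTop, f N ≤ 2 ^ (Real.logb 2 N) ^ ε)) ∧
    (Null f {A : Oracle | ¬ ((∃ L, IsPP A L ∧ ¬ (IsNP A L ∨ IsNP A Lᶜ)) ∧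
        ∃ L, IsPSPACE A L ∧ ¬ IsPP A L)} ↔
      ∀ ε : ℝ, 0 < ε → ∃ᶠ N : ℕ in Filter.atTop, f N ≤ 2 ^ (Real.logb 2 N) ^ ε) ∧
    (Null f {A : Oracle | ∀ L, IsPP A L ↔ IsPSPACE A L} ↔
      ∀ ε : ℝ, 0 < ε → ∃ᶠ N : ℕ in Filter.atTop, f N ≤ 2 ^ (Real.logb 2 N) ^ ε) ∧
    (Null f {A : Oracle | ∀ L, IsPSPACE A L → IsPPPH A L} ↔
      ∀ ε : ℝ, 0 < ε → ∃ᶠ N : ℕ in Filter.atTop, f N ≤ 2 ^ (Real.logb 2 N) ^ ε) := by
  have key : ∀ O : Set Oracle,
      (∀ A : Oracle, (∀ L, IsPSPACE A L → Reduces L {x | A x = true}) → A ∈ O) →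
      (∀ A ∈ O, (∀ L, IsPP A L → IsPH A L) ∨
        (∀ L, IsPSPACE A L → WithAdvice (IsPPPH A) L)) →
      (Null f O ↔
        ∀ ε : ℝ, 0 < ε → ∃ᶠ N : ℕ in Filter.atTop, f N ≤ 2 ^ (Real.logb 2 N) ^ ε) := by
    intro O h1 h2
    constructor
    · intro hn ε hε
      by_contra hcon
      rw [Filter.not_frequently] at hcon
      exact not_null f ε hε (hcon.mono fun N h => not_le.1 h) O h1 hn
    · intro hf
      have h3 : Null f {A : Oracle | ∀ L, IsPP A L → IsPH A L} := by
        refine null_of_frequently f hf _ fun A hA => IsPH.isPHpoly ?_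
        rw [parLang_eq]
        exact isPH_ex (hA _ (exLang_pp A)) _
      have h4 : Null f {A : Oracle | ∀ L, IsPSPACE A L → WithAdvice (IsPPPH A) L} :=
        null2 f hf _ fun A hA => hA _ (parLang_pspace A)
      exact null_mono (fun A hA => h2 A hA) (null_union h3 h4)
  refine ⟨key, key _ ?_ ?_, key _ ?_ ?_, key _ ?_ ?_⟩
  · rintro A hA ⟨_, L, hL, hL'⟩
    exact hL' (isPP_of_isP (isP_of_reduces (hA L hL)))
  · intro A hA
    rw [Set.mem_ofPred_eq, not_and_or] at hA
    push Not at hA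
    rcases hA with hA | hA
    · refine Or.inl fun L hL => ?_
      rcases hA L hL with h | h
      · exact isPH_of_isNP h
      · exact isPH_of_isNP_compl h
    · exact Or.inr fun L hL => withAdvice_of_isPPPH (isPPPH_of_isPP (hA L hL))
  · intro A hA L
    exact ⟨isPSPACE_of_isPP, fun hL => isPP_of_isP (isP_of_reduces (hA L hL))⟩
  · intro A hA
    exact Or.inr fun L hL => withAdvice_of_isPPPH (isPPPH_of_isPP ((hA L).2 hL))
  · intro A hA L hL
    exact isPPPH_of_isPP (isPP_of_isP (isP_of_reduces (hA L hL)))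
  · intro A hA
    exact Or.inr fun L hL => withAdvice_of_isPPPH (hA L hL)

end Pool.Agent.Results.MP_153864_lc.GaugeThreshold
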