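import Pool.Agent.H554R2.RK.SigmaTwoB

/-!
# Disjunctions of conjunctions of one-pass programs and programs with unbounded error

For every `k` there are functions `f` of `n` Boolean variables which are a disjunction of a constant
number of conjunctions of a constant number of functions computed by read-once branching programs
with `O(n)` nodes, with a fixed order of the variables, while randomised read-`k`-times branching
programs with fewer than `2 ^ (n / D)` nodes compute `f` with an advantage of at most
`2 ^ (- n / D)` over guessing: an analogue of `Σ₂ ⊈ PP`, which is stronger than `PSPACE ⊈ PP`.

The functions are given by random quadratic forms in blocks, the blocks coming from a constant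
number of random partitions of the variables.  The inputs accepted by a deterministic
read-`k`-times program are a disjoint union of few rectangles, and the sign of the parity of more
than `L` of the forms has exponentially small sums over large rectangles.  The inputs are weighted by
a dual polynomial which shows that the threshold degree of the disjunction of conjunctions is greater
than `L` (Minsky and Papert).

The lemmas were proved together with helper498 (Minsky-Papert), helper55, helper92, helper132,
helper143, helper218, helper234, helper259, helper409, helper431, helper463, helper556, helper724,
helper819, helper873, and the authors of `Pool.Agent.H554R2.Rnd` (random partitions and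
coefficients).
-/

set_option autoImplicit false

open Finset

namespace Pool.Agent.Results.MP_153864_lc.SigmaTwoReadK

open Pool.Agent.H554R2.Sem Pool.Agent.H554R2.Coin Pool.Agent.H554R2.RK

/-- For every `k` there is a constant `D` such that for all `n ≥ D` there are `t, w ≤ D` and
functions `q i j`, `i < t`, `j < w`, of `n` Boolean variables with the following properties.

* Each `q i j` is computed by a deterministic program with at most `D n` nodes, which on all inputs
  queries the same variables in the same order, each of them at most once.
* If `P ω`, `ω ∈ Ω`, are deterministic programs with fewer than `2 ^ (n / D)` nodes which on every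
  path of the graph query every variable at most `k` times, then for some input `x` at most the
  fraction `1 / 2 + 2 ^ (- n / D) / 2` of them accept `x` if and only if for some `i` all `q i j x`
  are true. -/
theorem result (k : ℕ) : ∃ D : ℕ, 0 < D ∧ ∀ n ≥ D, ∃ (t w : ℕ) (q : Fin t → Fin w → Pt n → Bool),
    t ≤ D ∧ w ≤ D ∧
    (∀ i j, ∃ (U : BP (Fin n) Bool) (l : List (Fin n)), Fintype.card U.State ≤ D * n ∧ l.Nodup ∧
      ∀ x : Pt n, U.Comp x l (q i j x)) ∧
    ∀ (Ω : Type) [Fintype Ω] [Nonempty Ω] (P : Ω → NBP (Fin n)), (∀ ω, ReadK (P ω) k) →
      (∀ ω, Determ (P ω)) → (∀ ω, Fintype.card (P ω).State < 2 ^ (n / D)) →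
        ∃ x, 2 ^ (n / D) * (2 * Nat.card {ω // Acc (P ω) x ↔ ∃ i, ∀ j, q i j x = true}) ≤
          (2 ^ (n / D) + 1) * Nat.card Ω :=
  sigma_final k

end Pool.Agent.Results.MP_153864_lc.SigmaTwoReadK
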